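import Pool.Agent.Helper80K1.Split

/-!
# From functions to sets: every value of the functional is almost a perimeter in high dimension
-/

set_option autoImplicit false

namespace Pool.Agent.Helper80K1

open MeasureTheory ProbabilityTheory Set Filter Topology
open Pool.Agent.H48R3.CP (D U continuous_D U_sub vol_Icc)
open Pool.Agent.R755.Tr (Ph Ps Ph_cont Ph_pos Ph_lt_one Ph_deriv Ph_Ps Ps_le_iff Ph_real Ph_strict
  Ph_mono φ_deriv)
open Pool.Agent.H460BZ (φ φ_eq φ_cont φ_nonneg)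
open Pool.Agent.H62

/-! ### scalar cutoffs -/

/-- trapezoid equal to one on `[0,δ]` and zero off `[-r, δ+r]` -/
noncomputable def zet (δ r t : ℝ) : ℝ := max 0 (min 1 (min ((t + r) / r) ((δ + r - t) / r)))

theorem zet_cont (δ r : ℝ) : Continuous (zet δ r) := by unfold zet; fun_prop

theorem zet_nonneg (δ r t : ℝ) : 0 ≤ zet δ r t := le_max_left _ _

theorem zet_le (δ r t : ℝ) : zet δ r t ≤ 1 := max_le zero_le_one (min_le_left _ _)

theorem zet_one {δ r t : ℝ} (hr : 0 < r) (h0 : 0 ≤ t) (h1 : t ≤ δ) : zet δ r t = 1 := by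
  unfold zet
  have e1 : 1 ≤ (t + r) / r := by rw [le_div_iff₀ hr]; linarith
  have e2 : 1 ≤ (δ + r - t) / r := by rw [le_div_iff₀ hr]; linarith
  rw [min_eq_left (le_min e1 e2)]
  norm_num

theorem zet_zero {δ r t : ℝ} (hr : 0 < r) (h : ¬ (-r ≤ t ∧ t ≤ δ + r)) : zet δ r t = 0 := by
  unfold zet
  apply max_eq_left
  rcases not_and_or.1 h with h1 | h1
  · push Not at h1
    exact (min_le_right _ _).trans ((min_le_left _ _).trans
      (div_nonpos_of_nonpos_of_nonneg (by linarith) hr.le))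
  · push Not at h1
    exact (min_le_right _ _).trans ((min_le_right _ _).trans
      (div_nonpos_of_nonpos_of_nonneg (by linarith) hr.le))

/-- integral of an indicator over the unit interval -/
theorem int_le_vol (g : ℝ → ℝ) (hg : Continuous g) (a b : ℝ) (hab : a ≤ b) (h1 : ∀ s, g s ≤ 1)
    (hz : ∀ s, s ∉ Icc a b → 0 < s → s ≤ 1 → g s = 0) :
    ∫ s in (0:ℝ)..1, g s ≤ b - a := by
  rw [intervalIntegral.integral_of_le zero_le_one]
  have hgi : IntegrableOn g (Ioc 0 1) :=
    (hg.continuousOn.integrableOn_compact (isCompact_Icc (a := (0:ℝ)) (b := 1))).mono_set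
      Ioc_subset_Icc_self
  have h2 : ∫ s in Ioc (0:ℝ) 1, g s ≤ ∫ s in Ioc (0:ℝ) 1, (Icc a b).indicator (fun _ => (1:ℝ)) s := by
    apply setIntegral_mono_on hgi _ measurableSet_Ioc
    · intro s hs
      by_cases h : s ∈ Icc a b
      · rw [indicator_of_mem h]; exact h1 s
      · rw [indicator_of_notMem h, hz s h hs.1 hs.2]
    · exact (integrable_indicator_iff measurableSet_Icc).2 (integrableOn_const
        (by simp)) |>.integrableOn
  refine h2.trans ?_
  have h3 : ∫ s in Ioc (0:ℝ) 1, (Icc a b).indicator (fun _ => (1:ℝ)) s ≤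
      ∫ s, (Icc a b).indicator (fun _ => (1:ℝ)) s := by
    apply setIntegral_le_integral
    · exact (integrable_indicator_iff measurableSet_Icc).2 (integrableOn_const (by simp))
    · exact Eventually.of_forall fun s => indicator_nonneg (by simp) s
  refine h3.trans ?_
  rw [integral_indicator measurableSet_Icc]
  simp [hab]

theorem zet_int {δ r v : ℝ} (hδ : 0 < δ) (hr : 0 < r) :
    ∫ s in (0:ℝ)..1, zet δ r (v - s) ≤ δ + 2 * r := by
  have := int_le_vol (fun s => zet δ r (v - s)) ((zet_cont δ r).comp (by fun_prop))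
    (v - (δ + r)) (v + r) (by linarith) (fun s => zet_le _ _ _)
    (fun s hs _ _ => zet_zero hr (fun hc => hs ⟨by linarith [hc.2], by linarith [hc.1]⟩))
  linarith

/-- upper ramp: one for `t ≥ 0`, zero for `t ≤ -δ` -/
noncomputable def up (δ t : ℝ) : ℝ := max 0 (min 1 ((t + δ) / δ))

theorem up_cont (δ : ℝ) : Continuous (up δ) := by unfold up; fun_prop

theorem up_nonneg (δ t : ℝ) : 0 ≤ up δ t := le_max_left _ _

theorem up_le (δ t : ℝ) : up δ t ≤ 1 := max_le zero_le_one (min_le_left _ _)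

theorem up_one {δ t : ℝ} (hδ : 0 < δ) (h : 0 ≤ t) : up δ t = 1 := by
  unfold up
  have e1 : 1 ≤ (t + δ) / δ := by rw [le_div_iff₀ hδ]; linarith
  rw [min_eq_left e1]; norm_num

theorem up_zero {δ t : ℝ} (hδ : 0 < δ) (h : t ≤ -δ) : up δ t = 0 := by
  unfold up
  apply max_eq_left
  exact (min_le_right _ _).trans (div_nonpos_of_nonpos_of_nonneg (by linarith) hδ.le)

theorem up_int {δ v : ℝ} (hδ : 0 < δ) (hv : 0 < v) :
    ∫ s in (0:ℝ)..1, up δ (v - s) ≤ v + δ := by
  have := int_le_vol (fun s => up δ (v - s)) ((up_cont δ).comp (by fun_prop))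
    0 (v + δ) (by linarith) (fun s => up_le _ _)
    (fun s hs hs0 _ => by
      apply up_zero hδ
      by_contra hc
      push Not at hc
      exact hs ⟨hs0.le, by linarith⟩)
  linarith

/-- `up δ (t - 2δ)` is one for `t ≥ 2δ` and zero for `t ≤ δ` -/
theorem dn_int {δ v : ℝ} (hδ : 0 < δ) (hv : v < 1) :
    v - 2 * δ ≤ ∫ s in (0:ℝ)..1, up δ (v - s - 2 * δ) := by
  have hc : Continuous fun s => 1 - up δ (v - s - 2 * δ) := by
    have := up_cont δ
    fun_prop
  have h := int_le_vol (fun s => 1 - up δ (v - s - 2 * δ)) hc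
    (v - 2 * δ) 1 (by linarith) (fun s => by linarith [up_nonneg δ (v - s - 2 * δ)])
    (fun s hs _ hs1 => by
      rw [up_one hδ, sub_self]
      by_contra hc
      push Not at hc
      exact hs ⟨by linarith, hs1⟩)
  rw [intervalIntegral.integral_sub (by simp) (by
    have := up_cont δ
    apply Continuous.intervalIntegrable; fun_prop)] at h
  simp only [intervalIntegral.integral_const, sub_zero, smul_eq_mul, mul_one] at h
  linarith

/-! ### the main estimate -/

theorem sqrt_tri (a b c : ℝ) (ha : 0 ≤ a) (hc : 0 ≤ c) (_hb : 0 ≤ b) :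
    √(a + (b + c) ^ 2) ≤ √(a + b ^ 2) + c := by
  rw [Real.sqrt_le_left (by positivity)]
  have h1 : √(a + b ^ 2) ^ 2 = a + b ^ 2 := Real.sq_sqrt (by positivity)
  have h2 : b ≤ √(a + b ^ 2) := Real.le_sqrt_of_sq_le (by linarith)
  nlinarith

theorem sqrt_add (a b : ℝ) (ha : 0 ≤ a) : √(a + b) ≤ √a + √|b| := by
  rw [Real.sqrt_le_left (by positivity)]
  have h1 := Real.sq_sqrt ha
  have h2 := Real.sq_sqrt (abs_nonneg b)
  have h3 : 0 ≤ √a * √|b| := by positivity
  have h4 := le_abs_self b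
  nlinarith

theorem wf_cont {d : ℕ} (f : (Fin d → ℝ) → ℝ) (hf : ContDiff ℝ 1 f) : Continuous (wf f) := by
  have h1 := continuous_Iso
  have h2 := fun i => continuous_D f hf i
  have h3 := hf.continuous
  unfold wf
  fun_prop

/-- the integrand of the limiting perimeter -/
noncomputable def H1 {d : ℕ} (δ r : ℝ) (f : (Fin d → ℝ) → ℝ) (p : ℝ × (Fin d → ℝ)) : ℝ :=
  zet δ r (f p.2 - p.1) * √(∑ i, D f i p.2 ^ 2 + (Real.pi * Iso p.1) ^ 2)

theorem H1_cont {d : ℕ} (δ r : ℝ) (f : (Fin d → ℝ) → ℝ) (hf : ContDiff ℝ 1 f) :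
    Continuous (H1 δ r f) := by
  have h1 := continuous_Iso
  have h2 := fun i => continuous_D f hf i
  have h3 := hf.continuous
  have h4 := zet_cont δ r
  unfold H1
  fun_prop

theorem H1_int {d : ℕ} (δ r ω : ℝ) (hδ : 0 < δ) (hr : 0 < r) (hω : 0 < ω)
    (f : (Fin d → ℝ) → ℝ) (hf : ContDiff ℝ 1 f) (x : Fin d → ℝ)
    (hIso : ∀ s t : ℝ, |s - t| ≤ δ + r → |Iso s - Iso t| ≤ ω) :
    ∫ s in (0:ℝ)..1, H1 δ r f (s, x) ≤ (δ + 2 * r) * (wf f x + Real.pi * ω) := by
  have hw0 : 0 ≤ wf f x := Real.sqrt_nonneg _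
  have hpi := Real.pi_pos
  have h1 : ∀ s ∈ Icc (0:ℝ) 1, H1 δ r f (s, x) ≤
      zet δ r (f x - s) * (wf f x + Real.pi * ω) := by
    intro s _
    show zet δ r (f x - s) * √(∑ i, D f i x ^ 2 + (Real.pi * Iso s) ^ 2) ≤ _
    by_cases h : -r ≤ f x - s ∧ f x - s ≤ δ + r
    · apply mul_le_mul_of_nonneg_left _ (zet_nonneg _ _ _)
      have h2 : |s - f x| ≤ δ + r := by
        rw [abs_le]; constructor <;> linarith [h.1, h.2]
      have h3 := hIso s (f x) h2
      have h4 : Iso s ≤ Iso (f x) + ω := by linarith [(abs_le.1 h3).2]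
      have h5 := Iso_nonneg s
      have h6 := Iso_nonneg (f x)
      have h7 : √(∑ i, D f i x ^ 2 + (Real.pi * Iso s) ^ 2) ≤
          √(∑ i, D f i x ^ 2 + (Real.pi * Iso (f x) + Real.pi * ω) ^ 2) := by
        apply Real.sqrt_le_sqrt
        have : Real.pi * Iso s ≤ Real.pi * Iso (f x) + Real.pi * ω := by
          rw [← mul_add]; exact mul_le_mul_of_nonneg_left h4 hpi.le
        have h8 : (Real.pi * Iso s) ^ 2 ≤ (Real.pi * Iso (f x) + Real.pi * ω) ^ 2 :=
          pow_le_pow_left₀ (by positivity) this 2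
        linarith
      refine h7.trans ?_
      have h9 := sqrt_tri (∑ i, D f i x ^ 2) (Real.pi * Iso (f x)) (Real.pi * ω)
        (Finset.sum_nonneg fun i _ => sq_nonneg _) (by positivity) (by positivity)
      refine h9.trans (le_of_eq ?_)
      unfold wf
      rw [mul_pow, add_comm (Real.pi ^ 2 * Iso (f x) ^ 2)]
    · rw [zet_zero hr h, zero_mul, zero_mul]
  have hzc : Continuous fun s => zet δ r (f x - s) := (zet_cont δ r).comp (by fun_prop)
  have hHc : Continuous fun s => H1 δ r f (s, x) :=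
    (H1_cont δ r f hf).comp (continuous_id.prodMk continuous_const)
  calc ∫ s in (0:ℝ)..1, H1 δ r f (s, x) ≤
        ∫ s in (0:ℝ)..1, zet δ r (f x - s) * (wf f x + Real.pi * ω) := by
        apply intervalIntegral.integral_mono_on (by norm_num)
          (hHc.intervalIntegrable _ _) ((hzc.mul continuous_const).intervalIntegrable _ _) h1
    _ = (∫ s in (0:ℝ)..1, zet δ r (f x - s)) * (wf f x + Real.pi * ω) := by
        rw [intervalIntegral.integral_mul_const]
    _ ≤ _ := mul_le_mul_of_nonneg_right (zet_int hδ hr) (by positivity)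

theorem cube_int {d : ℕ} (g : (Fin d → ℝ) → ℝ) (hg : Continuous g) :
    IntegrableOn g (Icc (0 : Fin d → ℝ) 1) :=
  hg.continuousOn.integrableOn_compact isCompact_Icc

theorem cube_one {d : ℕ} : ∫ _x in Icc (0 : Fin d → ℝ) 1, (1:ℝ) = 1 := by
  rw [setIntegral_const, Measure.real, vol_Icc]; simp

theorem cube_const {d : ℕ} (c : ℝ) : ∫ _x in Icc (0 : Fin d → ℝ) 1, c = c := by
  rw [setIntegral_const, Measure.real, vol_Icc]; simp

theorem φ_le_one (x : ℝ) : φ x ≤ 1 := (φ_le_half x).trans (by norm_num)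

theorem per_bound {m d : ℕ} (δ r : ℝ) (hδ : 0 < δ) (hr : 0 < r) (f : (Fin d → ℝ) → ℝ)
    (hf : ContDiff ℝ 1 f) :
    Lam (GG m f) δ - Lam (GG m f) 0 ≤
      (∫ z in Icc (0 : Fin (m + d) → ℝ) 1, H1 δ r f (Ph (TT m (fs z)), sn z)) +
        ∫ y, √|VV m y - Real.pi ^ 2| ∂(Pm m) := by
  have hG := GG_contDiff m f hf
  have hGc := hG.continuous
  have hgc := gn_cont _ hG
  have hH := H1_cont δ r f hf
  have hV := VV_cont m
  have hfs := fs_cont (m := m) (d := d)
  have hsn := sn_cont (m := m) (d := d)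
  have hT := TT_cont m
  have hz := zet_cont δ r
  have e2 : ∫ y, √|VV m y - Real.pi ^ 2| ∂(Pm m) =
      ∫ z in Icc (0 : Fin (m + d) → ℝ) 1, √|VV m (fs z) - Real.pi ^ 2| := by
    have h := split_int (m := m) (d := d) (fun p => √|VV m p.1 - Real.pi ^ 2|) (by fun_prop)
    rw [h]
    congr 1
    funext y
    exact (cube_const _).symm
  have hH' : Continuous fun z : Fin (m + d) → ℝ => H1 δ r f (Ph (TT m (fs z)), sn z) :=
    hH.comp ((Ph_cont.comp (hT.comp hfs)).prodMk hsn)
  have hV' : Continuous fun z : Fin (m + d) → ℝ => √|VV m (fs z) - Real.pi ^ 2| := by fun_prop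
  rw [e2, ← integral_add (cube_int _ hH') (cube_int _ hV'), Lam_sub _ hG hδ.le]
  have hmS : MeasurableSet (Icc (0 : Fin (m + d) → ℝ) 1 ∩ {x | 0 < GG m f x ∧ GG m f x ≤ δ}) :=
    measurableSet_Icc.inter ((measurableSet_lt measurable_const hGc.measurable).inter
      (measurableSet_le hGc.measurable measurable_const))
  have h1 : ∫ x in Icc (0 : Fin (m + d) → ℝ) 1 ∩ {x | 0 < GG m f x ∧ GG m f x ≤ δ}, gn (GG m f) x ≤
      ∫ x in Icc (0 : Fin (m + d) → ℝ) 1, zet δ r (GG m f x) * gn (GG m f) x := by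
    have h2 : ∫ x in Icc (0 : Fin (m + d) → ℝ) 1 ∩ {x | 0 < GG m f x ∧ GG m f x ≤ δ},
        gn (GG m f) x = ∫ x in Icc (0 : Fin (m + d) → ℝ) 1 ∩ {x | 0 < GG m f x ∧ GG m f x ≤ δ},
        zet δ r (GG m f x) * gn (GG m f) x := by
      apply setIntegral_congr_fun hmS
      intro x hx
      show gn (GG m f) x = zet δ r (GG m f x) * gn (GG m f) x
      rw [zet_one hr hx.2.1.le hx.2.2, one_mul]
    rw [h2]
    apply setIntegral_mono_set (cube_int _ (by fun_prop))
    · exact Eventually.of_forall fun x => mul_nonneg (zet_nonneg _ _ _) (gn_nonneg _ _)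
    · exact (LE.le.eventuallyLE inter_subset_left)
  refine h1.trans ?_
  apply integral_mono (cube_int _ (by fun_prop)) ((cube_int _ hH').add (cube_int _ hV'))
  intro z
  show zet δ r (GG m f z) * gn (GG m f) z ≤ H1 δ r f (Ph (TT m (fs z)), sn z) +
    √|VV m (fs z) - Real.pi ^ 2|
  rw [gn_GG f hf z]
  unfold H1
  rw [Iso_Ph]
  set a := ∑ i, D f i (sn z) ^ 2 with ha
  have ha0 : 0 ≤ a := Finset.sum_nonneg fun i _ => sq_nonneg _
  set p := φ (TT m (fs z)) with hp
  have hp0 : 0 ≤ p := φ_nonneg _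
  have hp1 : p ≤ 1 := φ_le_one _
  set V := VV m (fs z) with hVdef
  have e3 : a + p ^ 2 * V = (a + (Real.pi * p) ^ 2) + p ^ 2 * (V - Real.pi ^ 2) := by ring
  have h3 := sqrt_add (a + (Real.pi * p) ^ 2) (p ^ 2 * (V - Real.pi ^ 2)) (by positivity)
  rw [← e3] at h3
  have h4 : √|p ^ 2 * (V - Real.pi ^ 2)| ≤ √|V - Real.pi ^ 2| := by
    apply Real.sqrt_le_sqrt
    rw [abs_mul, abs_of_nonneg (sq_nonneg p)]
    have : p ^ 2 ≤ 1 := by nlinarith
    have h5 := abs_nonneg (V - Real.pi ^ 2)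
    nlinarith
  have hz0 := zet_nonneg δ r (GG m f z)
  have hz1 := zet_le δ r (GG m f z)
  have h5 : 0 ≤ √|V - Real.pi ^ 2| := Real.sqrt_nonneg _
  calc zet δ r (GG m f z) * √(a + p ^ 2 * V) ≤
        zet δ r (GG m f z) * (√(a + (Real.pi * p) ^ 2) + √|V - Real.pi ^ 2|) :=
        mul_le_mul_of_nonneg_left (by linarith) hz0
    _ = zet δ r (GG m f z) * √(a + (Real.pi * p) ^ 2) +
        zet δ r (GG m f z) * √|V - Real.pi ^ 2| := by ring
    _ ≤ _ := by
        have : zet δ r (GG m f z) * √|V - Real.pi ^ 2| ≤ √|V - Real.pi ^ 2| := by nlinarith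
        have e : zet δ r (GG m f z) = zet δ r (f (sn z) - Ph (TT m (fs z))) := rfl
        rw [← e]
        linarith

theorem U_meas {n : ℕ} : MeasurableSet (U n) := by
  have : U n = ⋂ i, {x : Fin n → ℝ | 0 < x i ∧ x i < 1} := by
    ext x; simp [U]
  rw [this]
  exact MeasurableSet.iInter fun i => (measurableSet_lt measurable_const
    (measurable_pi_apply i)).inter (measurableSet_lt (measurable_pi_apply i) measurable_const)

theorem U_ae {n : ℕ} : U n =ᵐ[volume] Icc (0 : Fin n → ℝ) 1 := by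
  have h := Measure.univ_pi_Ioo_ae_eq_Icc (μ := fun _ : Fin n => (volume : Measure ℝ))
    (f := fun _ => (0:ℝ)) (g := fun _ => (1:ℝ))
  have e : U n = Set.pi univ fun _ : Fin n => Ioo (0:ℝ) 1 := by
    ext x; simp [U]
  rw [e]
  exact h

/-- the volume of a superlevel set compared with a cutoff integral -/
theorem vol_le {n : ℕ} (G : (Fin n → ℝ) → ℝ) (hG : Continuous G) (c : ℝ) (u : ℝ → ℝ)
    (hu : Continuous u) (hu0 : ∀ t, 0 ≤ u t) (hu1 : ∀ t, c < t → 1 ≤ u t) :
    (volume (U n ∩ {x | c < G x})).toReal ≤ ∫ x in Icc (0 : Fin n → ℝ) 1, u (G x) := by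
  have hm : MeasurableSet {x | c < G x} := measurableSet_lt measurable_const hG.measurable
  have h1 : (volume (U n ∩ {x | c < G x})).toReal =
      ∫ x in Icc (0 : Fin n → ℝ) 1, ({x | c < G x}).indicator (fun _ => (1:ℝ)) x := by
    rw [integral_indicator hm, Measure.restrict_restrict hm, setIntegral_const, smul_eq_mul,
      mul_one, Measure.real, inter_comm]
    congr 1
    apply measure_congr
    exact (ae_eq_refl _).inter U_ae
  rw [h1]
  have hfin : IntegrableOn (fun x => ({x | c < G x}).indicator (fun _ => (1:ℝ)) x)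
      (Icc (0 : Fin n → ℝ) 1) := by
    have : IntegrableOn (fun _ : Fin n → ℝ => (1:ℝ)) (Icc (0 : Fin n → ℝ) 1) :=
      cube_int _ continuous_const
    exact this.indicator hm
  apply integral_mono hfin (cube_int _ (by fun_prop))
  intro x
  show ({x | c < G x}).indicator (fun _ => (1:ℝ)) x ≤ u (G x)
  by_cases hx : x ∈ {x | c < G x}
  · rw [indicator_of_mem hx]; exact hu1 _ hx
  · rw [indicator_of_notMem hx]; exact hu0 _

theorem vol_ge {n : ℕ} (G : (Fin n → ℝ) → ℝ) (hG : Continuous G) (c : ℝ) (u : ℝ → ℝ)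
    (hu : Continuous u) (hu0 : ∀ t, u t ≤ 1) (hu1 : ∀ t, t ≤ c → u t ≤ 0) :
    ∫ x in Icc (0 : Fin n → ℝ) 1, u (G x) ≤ (volume (U n ∩ {x | c < G x})).toReal := by
  have hm : MeasurableSet {x | c < G x} := measurableSet_lt measurable_const hG.measurable
  have h1 : (volume (U n ∩ {x | c < G x})).toReal =
      ∫ x in Icc (0 : Fin n → ℝ) 1, ({x | c < G x}).indicator (fun _ => (1:ℝ)) x := by
    rw [integral_indicator hm, Measure.restrict_restrict hm, setIntegral_const, smul_eq_mul,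
      mul_one, Measure.real, inter_comm]
    congr 1
    apply measure_congr
    exact (ae_eq_refl _).inter U_ae
  rw [h1]
  have hfin : IntegrableOn (fun x => ({x | c < G x}).indicator (fun _ => (1:ℝ)) x)
      (Icc (0 : Fin n → ℝ) 1) := by
    have : IntegrableOn (fun _ : Fin n → ℝ => (1:ℝ)) (Icc (0 : Fin n → ℝ) 1) :=
      cube_int _ continuous_const
    exact this.indicator hm
  apply integral_mono (cube_int _ (by fun_prop)) hfin
  intro x
  show u (G x) ≤ ({x | c < G x}).indicator (fun _ => (1:ℝ)) x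
  by_cases hx : x ∈ {x | c < G x}
  · rw [indicator_of_mem hx]; exact hu0 _
  · rw [indicator_of_notMem hx]
    exact hu1 _ (not_lt.1 hx)

theorem Iso_unif (ω : ℝ) (hω : 0 < ω) :
    ∃ δ > 0, ∀ s t : ℝ, |s - t| ≤ δ → |Iso s - Iso t| ≤ ω := by
  have h1 : UniformContinuous Iso := by
    have hz : HasCompactSupport Iso := by
      apply HasCompactSupport.of_support_subset_isCompact (isCompact_Icc (a := (0:ℝ)) (b := 1))
      intro v hv
      rw [Function.mem_support] at hv
      by_contra hc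
      apply hv
      rw [mem_Icc, not_and_or] at hc
      rcases hc with h | h
      · exact Iso_of_nonpos (by linarith [not_le.1 h])
      · exact Iso_of_one_le (by linarith [not_le.1 h])
    exact hz.uniformContinuous_of_continuous continuous_Iso
  rw [Metric.uniformContinuous_iff] at h1
  obtain ⟨δ, hδ, h⟩ := h1 ω hω
  refine ⟨δ / 2, by positivity, fun s t hst => ?_⟩
  have := h (a := s) (b := t) (by rw [Real.dist_eq]; linarith)
  rw [Real.dist_eq] at this
  exact this.le

/-- **From functions to sets.** -/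
theorem FtoS {d : ℕ} (f : (Fin d → ℝ) → ℝ) (hf : ContDiff ℝ 1 f) (h01 : ∀ x, 0 < f x ∧ f x < 1)
    (ε : ℝ) (hε : 0 < ε) :
    ∃ (n : ℕ) (v : ℝ), |v - ∫ x in Icc (0 : Fin d → ℝ) 1, f x| ≤ ε ∧
      Ach n v ((∫ x in Icc (0 : Fin d → ℝ) 1, wf f x) + ε) := by
  set W := ∫ x in Icc (0 : Fin d → ℝ) 1, wf f x with hW
  have hwc := wf_cont f hf
  have hW0 : 0 ≤ W := integral_nonneg fun x => Real.sqrt_nonneg _
  have hpi := Real.pi_pos
  set ω := ε / (4 * Real.pi) with hω
  have hω0 : 0 < ω := by positivity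
  have hpω : Real.pi * ω = ε / 4 := by rw [hω]; field_simp
  obtain ⟨δ0, hδ0, hIso0⟩ := Iso_unif ω hω0
  set δ := min (δ0 / 2) (ε / 4) with hδdef
  have hδ : 0 < δ := lt_min (by positivity) (by positivity)
  have hδ1 : δ ≤ δ0 / 2 := min_le_left _ _
  have hδ2 : δ ≤ ε / 4 := min_le_right _ _
  set κ := min 1 (ε / (8 * (W + ε))) with hκdef
  have hκ : 0 < κ := lt_min one_pos (by positivity)
  have hκ1 : κ ≤ 1 := min_le_left _ _
  have hκ2 : 2 * κ * (W + ε / 4) ≤ ε / 4 := by
    have h1 : κ ≤ ε / (8 * (W + ε)) := min_le_right _ _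
    rw [le_div_iff₀ (by positivity)] at h1
    nlinarith
  set r := κ * δ with hr
  have hr0 : 0 < r := mul_pos hκ hδ
  have hr1 : r ≤ δ := by rw [hr]; nlinarith
  have hIso : ∀ s t : ℝ, |s - t| ≤ δ + r → |Iso s - Iso t| ≤ ω := fun s t h =>
    hIso0 s t (by linarith)
  -- limits
  have hlim1 := limH (H1 δ r f) (H1_cont δ r f hf)
  have hfc := hf.continuous
  have hupc := up_cont δ
  have hc2 : Continuous fun p : ℝ × (Fin d → ℝ) => up δ (f p.2 - p.1) := by fun_prop
  have hc3 : Continuous fun p : ℝ × (Fin d → ℝ) => up δ (f p.2 - p.1 - 2 * δ) := by fun_prop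
  have hlim2 := limH (fun p : ℝ × (Fin d → ℝ) => up δ (f p.2 - p.1)) hc2
  have hlim3 := limH (fun p : ℝ × (Fin d → ℝ) => up δ (f p.2 - p.1 - 2 * δ)) hc3
  have hb1 : ∫ x in Icc (0 : Fin d → ℝ) 1, ∫ s in (0:ℝ)..1, H1 δ r f (s, x) ≤
      (δ + 2 * r) * (W + Real.pi * ω) := by
    have e : (δ + 2 * r) * (W + Real.pi * ω) =
        ∫ x in Icc (0 : Fin d → ℝ) 1, (δ + 2 * r) * (wf f x + Real.pi * ω) := by
      rw [integral_const_mul, integral_add (cube_int _ hwc) (cube_int _ continuous_const),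
        cube_const, hW]
    rw [e]
    apply integral_mono
    · apply cube_int
      exact intervalIntegral.continuous_parametric_intervalIntegral_of_continuous'
        (f := fun x s => H1 δ r f (s, x)) ((H1_cont δ r f hf).comp
          (continuous_snd.prodMk continuous_fst)) 0 1
    · exact cube_int _ (by fun_prop)
    · intro x
      exact H1_int δ r ω hδ hr0 hω0 f hf x hIso
  have hb2 : ∫ x in Icc (0 : Fin d → ℝ) 1, ∫ s in (0:ℝ)..1, up δ (f x - s) ≤
      (∫ x in Icc (0 : Fin d → ℝ) 1, f x) + δ := by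
    have e : (∫ x in Icc (0 : Fin d → ℝ) 1, f x) + δ = ∫ x in Icc (0 : Fin d → ℝ) 1, (f x + δ) := by
      rw [integral_add (cube_int _ hfc) (cube_int _ continuous_const), cube_const]
    rw [e]
    apply integral_mono
    · apply cube_int
      exact intervalIntegral.continuous_parametric_intervalIntegral_of_continuous'
        (f := fun x s => up δ (f x - s)) (by unfold Function.uncurry; fun_prop) 0 1
    · exact cube_int _ (by fun_prop)
    · intro x
      exact up_int hδ (h01 x).1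
  have hb3 : (∫ x in Icc (0 : Fin d → ℝ) 1, f x) - 2 * δ ≤
      ∫ x in Icc (0 : Fin d → ℝ) 1, ∫ s in (0:ℝ)..1, up δ (f x - s - 2 * δ) := by
    have e : (∫ x in Icc (0 : Fin d → ℝ) 1, f x) - 2 * δ =
        ∫ x in Icc (0 : Fin d → ℝ) 1, (f x - 2 * δ) := by
      rw [integral_sub (cube_int _ hfc) (cube_int _ continuous_const), cube_const]
    rw [e]
    apply integral_mono
    · exact cube_int _ (by fun_prop)
    · apply cube_int
      exact intervalIntegral.continuous_parametric_intervalIntegral_of_continuous'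
        (f := fun x s => up δ (f x - s - 2 * δ)) (by unfold Function.uncurry; fun_prop) 0 1
    · intro x
      exact dn_int hδ (h01 x).2
  have hevd : ∀ᶠ m in atTop, ∫ z in Icc (0 : Fin (m + d) → ℝ) 1,
      H1 δ r f (Ph (TT m (fs z)), sn z) < (δ + 2 * r) * (W + Real.pi * ω) + δ * ε / 8 := by
    apply hlim1.eventually (gt_mem_nhds _)
    have : 0 < δ * ε / 8 := by positivity
    linarith
  have hev2 : ∀ᶠ m in atTop, ∫ z in Icc (0 : Fin (m + d) → ℝ) 1,
      up δ (f (sn z) - Ph (TT m (fs z))) < (∫ x in Icc (0 : Fin d → ℝ) 1, f x) + δ + ε / 4 := by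
    apply hlim2.eventually (gt_mem_nhds _)
    show ∫ x in Icc (0 : Fin d → ℝ) 1, ∫ s in (0:ℝ)..1, up δ (f x - s) < _
    linarith
  have hev3 : ∀ᶠ m in atTop, (∫ x in Icc (0 : Fin d → ℝ) 1, f x) - 2 * δ - ε / 4 <
      ∫ z in Icc (0 : Fin (m + d) → ℝ) 1, up δ (f (sn z) - Ph (TT m (fs z)) - 2 * δ) := by
    apply hlim3.eventually (lt_mem_nhds _)
    show _ < ∫ x in Icc (0 : Fin d → ℝ) 1, ∫ s in (0:ℝ)..1, up δ (f x - s - 2 * δ)
    linarith
  obtain ⟨m, hm1, hm2, hm3, hm4⟩ :=
    (hevd.and (hev2.and (hev3.and (VV_lim (δ * ε / 8) (by positivity))))).exists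
  have hG := GG_contDiff m f hf
  obtain ⟨c, hc, hPB⟩ := good_level (GG m f) hG δ (ε / 4) hδ (by positivity)
  set E := U (m + d) ∩ {x | c < GG m f x} with hE
  have hEm : MeasurableSet E :=
    U_meas.inter (measurableSet_lt measurable_const hG.continuous.measurable)
  have hvfin : volume E ≠ ⊤ := by
    have : volume E ≤ volume (Icc (0 : Fin (m + d) → ℝ) 1) :=
      measure_mono (inter_subset_left.trans U_sub)
    rw [vol_Icc] at this
    exact ne_top_of_le_ne_top ENNReal.one_ne_top this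
  refine ⟨m + d, (volume E).toReal, ?_, E, hEm, inter_subset_left,
    (ENNReal.ofReal_toReal hvfin).symm, ?_⟩
  · have h1 : (volume E).toReal ≤ ∫ z in Icc (0 : Fin (m + d) → ℝ) 1, up δ (GG m f z) :=
      vol_le (GG m f) hG.continuous c (up δ) hupc (up_nonneg δ)
        fun t ht => (up_one hδ (hc.1.le.trans ht.le)).ge
    have h2 : ∫ z in Icc (0 : Fin (m + d) → ℝ) 1, up δ (GG m f z - 2 * δ) ≤ (volume E).toReal :=
      vol_ge (GG m f) hG.continuous c (fun t => up δ (t - 2 * δ)) (by fun_prop)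
        (fun t => up_le _ _) fun t ht => (up_zero hδ (by linarith [hc.2])).le
    have h3 : ∫ z in Icc (0 : Fin (m + d) → ℝ) 1, up δ (GG m f z) <
        (∫ x in Icc (0 : Fin d → ℝ) 1, f x) + δ + ε / 4 := hm2
    have h4 : (∫ x in Icc (0 : Fin d → ℝ) 1, f x) - 2 * δ - ε / 4 <
        ∫ z in Icc (0 : Fin (m + d) → ℝ) 1, up δ (GG m f z - 2 * δ) := hm3
    rw [abs_le]
    constructor <;> linarith
  · intro ξ hξ
    refine (hPB ξ hξ).trans ?_
    have h1 := per_bound (m := m) δ r hδ hr0 f hf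
    have h2 : Lam (GG m f) δ - Lam (GG m f) 0 ≤
        δ * ((1 + 2 * κ) * (W + Real.pi * ω) + ε / 4) := by
      have e : (δ + 2 * r) * (W + Real.pi * ω) + δ * ε / 8 + δ * ε / 8 =
        δ * ((1 + 2 * κ) * (W + Real.pi * ω) + ε / 4) := by rw [hr]; ring
      rw [← e]
      linarith
    have h3 : (Lam (GG m f) δ - Lam (GG m f) 0) / δ ≤
        (1 + 2 * κ) * (W + Real.pi * ω) + ε / 4 := by
      rw [div_le_iff₀ hδ, mul_comm]; exact h2
    rw [hpω] at h3
    nlinarith

end Pool.Agent.Helper80K1
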