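import Pool.Agent.Helper62K1.Defs

/-!
# Central limit theorem for cosines on the cube
-/

set_option autoImplicit false

namespace Pool.Agent.Helper80K1

open MeasureTheory ProbabilityTheory Set Filter Topology
open Pool.Agent.H48R3.CP (D U continuous_D U_sub vol_Icc)

/-- uniform measure on the unit interval -/
noncomputable def m1 : Measure ℝ := volume.restrict (Icc 0 1)

instance : IsProbabilityMeasure m1 := ⟨by simp [m1]⟩

/-- uniform measure on the unit cube -/
noncomputable def Pm (m : ℕ) : Measure (Fin m → ℝ) := Measure.pi (fun _ => m1)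

instance (m : ℕ) : IsProbabilityMeasure (Pm m) := by unfold Pm; infer_instance

theorem Pm_eq (m : ℕ) : Pm m = volume.restrict (Icc (0 : Fin m → ℝ) 1) := by
  unfold Pm m1
  rw [← Measure.restrict_pi_pi, ← pi_univ_Icc, volume_pi]
  rfl

/-- the normalised first Neumann eigenfunction -/
noncomputable def X (t : ℝ) : ℝ := √2 * Real.cos (Real.pi * t)

theorem X_cont : Continuous X := by unfold X; fun_prop

theorem m1_int (g : ℝ → ℝ) : ∫ t, g t ∂m1 = ∫ t in (0:ℝ)..1, g t := by
  unfold m1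
  rw [intervalIntegral.integral_of_le (by norm_num), integral_Icc_eq_integral_Ioc]

theorem m1_integrable (g : ℝ → ℝ) (hg : Continuous g) : Integrable g m1 :=
  hg.continuousOn.integrableOn_compact isCompact_Icc

theorem Pm_integrable {m : ℕ} (g : (Fin m → ℝ) → ℝ) (hg : Continuous g) :
    Integrable g (Pm m) := by
  rw [Pm_eq]
  exact hg.continuousOn.integrableOn_compact isCompact_Icc

theorem cos_int (a : ℝ) (ha : a ≠ 0) (hs : Real.sin a = 0) :
    ∫ t in (0:ℝ)..1, Real.cos (a * t) = 0 := by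
  rw [intervalIntegral.integral_comp_mul_left (fun t => Real.cos t) ha]
  simp [hs]

theorem X_mean : ∫ t, X t ∂m1 = 0 := by
  rw [m1_int]
  unfold X
  rw [intervalIntegral.integral_const_mul, cos_int _ Real.pi_ne_zero Real.sin_pi, mul_zero]

theorem X_sq : ∫ t, X t ^ 2 ∂m1 = 1 := by
  rw [m1_int]
  have h : ∀ t, X t ^ 2 = 1 + Real.cos (2 * Real.pi * t) := by
    intro t
    unfold X
    rw [mul_pow, Real.sq_sqrt (by norm_num), mul_assoc 2 Real.pi t, Real.cos_two_mul]
    ring
  simp only [h]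
  rw [intervalIntegral.integral_add (by simp) (by
    apply Continuous.intervalIntegrable; fun_prop),
    cos_int _ (by have := Real.pi_ne_zero; positivity) Real.sin_two_pi]
  simp

/-- the almost Gaussian function -/
noncomputable def TT (m : ℕ) (y : Fin m → ℝ) : ℝ := (√(m : ℝ))⁻¹ * ∑ j, X (y j)

theorem TT_cont (m : ℕ) : Continuous (TT m) := by
  have := X_cont
  unfold TT
  fun_prop

theorem TT_char (m : ℕ) (t : ℝ) :
    charFun ((Pm m).map (TT m)) t = (charFun (m1.map X) ((√(m : ℝ))⁻¹ * t)) ^ m := by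
  have hX : ∀ i : Fin m, AEMeasurable (fun y : Fin m → ℝ => X (y i)) (Pm m) := fun i =>
    (X_cont.comp (continuous_apply i)).aemeasurable
  unfold TT
  rw [charFun_map_mul_comp (f := fun y : Fin m → ℝ => ∑ j, X (y j))
    (by have := X_cont; exact (Continuous.aemeasurable (by fun_prop)))]
  have hind : iIndepFun (fun (i : Fin m) (y : Fin m → ℝ) => X (y i)) (Pm m) :=
    iIndepFun_pi (fun _ => X_cont.aemeasurable)
  rw [hind.charFun_map_fun_sum_eq_prod hX]
  have : ∀ i : Fin m, (Pm m).map (fun y : Fin m → ℝ => X (y i)) = m1.map X := by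
    intro i
    have h := (measurePreserving_eval (fun _ : Fin m => m1) i).map_eq
    conv_rhs => rw [← h]
    rw [Measure.map_map X_cont.measurable (measurable_pi_apply i)]
    rfl
  simp [this]

theorem clt (Ψ : BoundedContinuousFunction ℝ ℝ) :
    Tendsto (fun m => ∫ y, Ψ (TT m y) ∂(Pm m)) atTop (𝓝 (∫ τ, Ψ τ ∂(gaussianReal 0 1))) := by
  set ν : ℕ → ProbabilityMeasure ℝ := fun m => ⟨(Pm m).map (TT m),
    Measure.isProbabilityMeasure_map (TT_cont m).aemeasurable⟩ with hν
  set ν0 : ProbabilityMeasure ℝ := ⟨gaussianReal 0 1, inferInstance⟩ with hν0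
  have h : Tendsto ν atTop (𝓝 ν0) := by
    refine ProbabilityMeasure.tendsto_iff_tendsto_charFun.2 fun t => ?_
    have h1 := tendsto_charFun_inv_sqrt_mul_pow (P := m1) (X := X) X_cont.aemeasurable X_mean
      (by simpa using X_sq) t
    simp only [hν, hν0, ProbabilityMeasure.coe_mk, TT_char]
    rw [charFun_gaussianReal]
    simpa [neg_div] using h1
  rw [ProbabilityMeasure.tendsto_iff_forall_integral_tendsto] at h
  have h2 := h Ψ
  refine h2.congr fun m => ?_
  simp only [hν, ProbabilityMeasure.coe_mk]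
  rw [integral_map (TT_cont m).aemeasurable Ψ.continuous.aestronglyMeasurable]

/-! ### the gradient -/

/-- the deviation of the squared gradient of one coordinate -/
noncomputable def Zf (t : ℝ) : ℝ := 2 * Real.pi ^ 2 * Real.sin (Real.pi * t) ^ 2

theorem Zf_cont : Continuous Zf := by unfold Zf; fun_prop

theorem Zf_mean : ∫ t, Zf t ∂m1 = Real.pi ^ 2 := by
  rw [m1_int]
  have h : ∀ t, Zf t = Real.pi ^ 2 - Real.pi ^ 2 * Real.cos (2 * Real.pi * t) := by
    intro t
    unfold Zf
    rw [mul_assoc 2 Real.pi t, Real.cos_two_mul, Real.sin_sq]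
    ring
  simp only [h]
  rw [intervalIntegral.integral_sub (by simp) (by
    apply Continuous.intervalIntegrable; fun_prop), intervalIntegral.integral_const_mul,
    cos_int _ (by have := Real.pi_ne_zero; positivity) Real.sin_two_pi]
  simp

theorem Zf_nonneg (t : ℝ) : 0 ≤ Zf t := by unfold Zf; positivity

theorem Zf_le (t : ℝ) : Zf t ≤ 2 * Real.pi ^ 2 := by
  unfold Zf
  have h := Real.sin_sq_le_one (Real.pi * t)
  have : 0 ≤ 2 * Real.pi ^ 2 := by positivity
  nlinarith

/-- squared gradient of `TT` -/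
noncomputable def VV (m : ℕ) (y : Fin m → ℝ) : ℝ := (m : ℝ)⁻¹ * ∑ j, Zf (y j)

theorem VV_cont (m : ℕ) : Continuous (VV m) := by
  have := Zf_cont
  unfold VV
  fun_prop

theorem VV_nonneg (m : ℕ) (y : Fin m → ℝ) : 0 ≤ VV m y := by
  unfold VV
  have := Finset.sum_nonneg fun (j : Fin m) (_ : j ∈ Finset.univ) => Zf_nonneg (y j)
  positivity

theorem VV_sq (m : ℕ) (hm : 0 < m) : ∫ y, (VV m y - Real.pi ^ 2) ^ 2 ∂(Pm m) ≤
    4 * Real.pi ^ 4 / m := by
  have hm0 : (0:ℝ) < m := by exact_mod_cast hm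
  have hLp : ∀ _ : Fin m, MemLp Zf 2 m1 := by
    intro _
    apply MemLp.of_bound Zf_cont.aestronglyMeasurable (2 * Real.pi ^ 2)
    refine Eventually.of_forall fun t => ?_
    rw [Real.norm_eq_abs, abs_of_nonneg (Zf_nonneg t)]
    exact Zf_le t
  have h1 := variance_sum_pi (μ := fun _ : Fin m => m1) (X := fun _ => Zf) hLp
  have h2 : Var[Zf; m1] ≤ 4 * Real.pi ^ 4 := by
    have h3 := variance_le_expectation_sq (μ := m1) (X := Zf) Zf_cont.aestronglyMeasurable
    refine h3.trans ?_
    have h4 : ∫ t, (Zf ^ 2) t ∂m1 ≤ ∫ t, (4 * Real.pi ^ 4) ∂m1 := by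
      apply integral_mono
      · exact m1_integrable (fun t => (Zf ^ 2) t) (Zf_cont.pow 2)
      · exact integrable_const _
      · intro t
        show Zf t ^ 2 ≤ _
        have a := Zf_nonneg t
        have b := Zf_le t
        nlinarith
    simpa using h4
  have hmean : ∫ y, (∑ j, Zf (y j)) ∂(Pm m) = m * Real.pi ^ 2 := by
    rw [integral_finsetSum]
    · have : ∀ i : Fin m, ∫ y, Zf (y i) ∂(Pm m) = Real.pi ^ 2 := by
        intro i
        have h := (measurePreserving_eval (fun _ : Fin m => m1) i)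
        have e : ∫ t, Zf t ∂m1 = ∫ y, Zf (y i) ∂(Pm m) := by
          rw [← h.map_eq, integral_map (measurable_pi_apply i).aemeasurable
            Zf_cont.aestronglyMeasurable]
          rfl
        rw [← e, Zf_mean]
      simp [this]
    · intro i _
      exact Pm_integrable _ (Zf_cont.comp (continuous_apply i))
  have h5 : Var[∑ i : Fin m, fun (y : Fin m → ℝ) => Zf (y i); Pm m] =
      ∫ y, (∑ j, Zf (y j) - m * Real.pi ^ 2) ^ 2 ∂(Pm m) := by
    rw [variance_eq_integral]
    · have e : (∑ i : Fin m, fun (y : Fin m → ℝ) => Zf (y i)) = fun y => ∑ j, Zf (y j) := by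
        funext y; simp
      rw [e, hmean]
    · have : Continuous (∑ i : Fin m, fun (y : Fin m → ℝ) => Zf (y i)) := by
        have := Zf_cont
        have e : (∑ i : Fin m, fun (y : Fin m → ℝ) => Zf (y i)) = fun y => ∑ j, Zf (y j) := by
          funext y; simp
        rw [e]
        fun_prop
      exact this.aemeasurable
  have h6 : ∀ y : Fin m → ℝ, (VV m y - Real.pi ^ 2) ^ 2 =
      ((m : ℝ)⁻¹) ^ 2 * (∑ j, Zf (y j) - m * Real.pi ^ 2) ^ 2 := by
    intro y
    unfold VV
    field_simp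
  simp only [h6]
  rw [integral_const_mul, ← h5]
  have h7 : Var[∑ i : Fin m, fun (y : Fin m → ℝ) => Zf (y i); Pm m] ≤ m * (4 * Real.pi ^ 4) := by
    unfold Pm
    rw [h1]
    simp only [Finset.sum_const, Finset.card_univ, Fintype.card_fin, nsmul_eq_mul]
    exact mul_le_mul_of_nonneg_left h2 hm0.le
  calc ((m : ℝ)⁻¹) ^ 2 * Var[∑ i : Fin m, fun (y : Fin m → ℝ) => Zf (y i); Pm m] ≤
      ((m : ℝ)⁻¹) ^ 2 * (m * (4 * Real.pi ^ 4)) := mul_le_mul_of_nonneg_left h7 (by positivity)
    _ = 4 * Real.pi ^ 4 / m := by field_simp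

/-- `∫ √|V - π²| → 0` -/
theorem VV_lim (e : ℝ) (he : 0 < e) :
    ∀ᶠ m in atTop, ∫ y, √|VV m y - Real.pi ^ 2| ∂(Pm m) ≤ e := by
  -- √|a| ≤ e/2 + 4 a² / e³·...
  have key : ∀ a : ℝ, √|a| ≤ e / 2 + (8 / e ^ 3) * a ^ 2 := by
    intro a
    set s := √|a| with hs
    have h0 : 0 ≤ s := Real.sqrt_nonneg _
    have h2 : a ^ 2 = s ^ 4 := by
      have : s ^ 2 = |a| := Real.sq_sqrt (abs_nonneg a)
      calc a ^ 2 = |a| ^ 2 := (sq_abs a).symm
        _ = s ^ 4 := by rw [← this]; ring
    rw [h2]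
    rcases le_or_gt s (e / 2) with h | h
    · have : 0 ≤ 8 / e ^ 3 * s ^ 4 := by positivity
      linarith
    · have h3 : 1 ≤ 8 / e ^ 3 * s ^ 3 := by
        rw [div_mul_eq_mul_div, le_div_iff₀ (by positivity), one_mul]
        have : (e / 2) ^ 3 ≤ s ^ 3 := pow_le_pow_left₀ (by positivity) h.le 3
        nlinarith
      have h4 : s * 1 ≤ s * (8 / e ^ 3 * s ^ 3) := mul_le_mul_of_nonneg_left h3 h0
      have h5 : s * (8 / e ^ 3 * s ^ 3) = 8 / e ^ 3 * s ^ 4 := by ring
      linarith
  have hlim : Tendsto (fun m : ℕ => (8 / e ^ 3) * (4 * Real.pi ^ 4 / m)) atTop (𝓝 0) := by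
    have := (tendsto_const_div_atTop_nhds_zero_nat (4 * Real.pi ^ 4)).const_mul (8 / e ^ 3)
    simpa using this
  filter_upwards [hlim.eventually (gt_mem_nhds (show 0 < e / 2 by positivity)),
    eventually_gt_atTop 0] with m hm hm0
  have hc := VV_cont m
  calc ∫ y, √|VV m y - Real.pi ^ 2| ∂(Pm m) ≤
      ∫ y, (e / 2 + (8 / e ^ 3) * (VV m y - Real.pi ^ 2) ^ 2) ∂(Pm m) := by
        apply integral_mono
        · exact Pm_integrable _ (by fun_prop)
        · exact Pm_integrable _ (by fun_prop)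
        · intro y; exact key _
    _ = e / 2 + (8 / e ^ 3) * ∫ y, (VV m y - Real.pi ^ 2) ^ 2 ∂(Pm m) := by
        rw [integral_add (integrable_const _) (Pm_integrable _ (by fun_prop)),
          integral_const_mul]
        simp
    _ ≤ e / 2 + (8 / e ^ 3) * (4 * Real.pi ^ 4 / m) := by
        have := mul_le_mul_of_nonneg_left (VV_sq m hm0) (show 0 ≤ 8 / e ^ 3 by positivity)
        linarith
    _ ≤ e := by linarith

end Pool.Agent.Helper80K1
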