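import Pool.Agent.Helper62K1.Defs

/-!
# Level sets of a `C¹` function: a coarea estimate for one good level
-/

set_option autoImplicit false

namespace Pool.Agent.Helper80K1

open MeasureTheory Set Filter Topology
open Pool.Agent.H48R3.CP (D U continuous_D U_sub vol_Icc)
open Pool.Agent.H62

variable {n : ℕ}

/-- gradient norm -/
noncomputable def gn (G : (Fin n → ℝ) → ℝ) (x : Fin n → ℝ) : ℝ := √(∑ i, D G i x ^ 2)

theorem gn_cont (G : (Fin n → ℝ) → ℝ) (hG : ContDiff ℝ 1 G) : Continuous (gn G) := by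
  have := fun i => continuous_D G hG i
  unfold gn
  fun_prop

theorem gn_nonneg (G : (Fin n → ℝ) → ℝ) (x : Fin n → ℝ) : 0 ≤ gn G x := Real.sqrt_nonneg _

theorem comp_contDiff (ξ : (Fin n → ℝ) → (Fin n → ℝ)) (hξ : Adm ξ) (i : Fin n) :
    ContDiff ℝ 1 (fun x => ξ x i) := (contDiff_pi.1 hξ.1) i

theorem comp_fderiv (ξ : (Fin n → ℝ) → (Fin n → ℝ)) (hξ : Adm ξ) (i : Fin n) (x v : Fin n → ℝ) :
    fderiv ℝ (fun x => ξ x i) x v = fderiv ℝ ξ x v i := by
  have h1 : DifferentiableAt ℝ ξ x := hξ.1.differentiable (by norm_num) x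
  rw [fderiv_apply h1]
  rfl

theorem comp_supp (ξ : (Fin n → ℝ) → (Fin n → ℝ)) (hξ : Adm ξ) (i : Fin n) :
    HasCompactSupport (fun x => ξ x i) :=
  hξ.2.1.comp_left (g := fun v : Fin n → ℝ => v i) rfl

theorem dv_cont (ξ : (Fin n → ℝ) → (Fin n → ℝ)) (hξ : Adm ξ) : Continuous (dv ξ) := by
  have h := hξ.1.continuous_fderiv (by norm_num)
  unfold dv
  refine continuous_finsetSum _ fun i _ => ?_
  exact (continuous_apply i).comp (h.clm_apply continuous_const)

theorem dv_supp (ξ : (Fin n → ℝ) → (Fin n → ℝ)) (hξ : Adm ξ) {x : Fin n → ℝ} (hx : x ∉ U n) :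
    dv ξ x = 0 := by
  have h1 : x ∉ tsupport ξ := fun h => hx (hξ.2.2.1 h)
  have h2 : fderiv ℝ ξ x = 0 := by
    have := support_fderiv_subset ℝ (f := ξ)
    by_contra hc
    exact h1 (this hc)
  unfold dv
  rw [h2]
  simp

theorem dv_hcs (ξ : (Fin n → ℝ) → (Fin n → ℝ)) (hξ : Adm ξ) : HasCompactSupport (dv ξ) := by
  have h1 : HasCompactSupport (fderiv ℝ ξ) := hξ.2.1.fderiv ℝ
  exact h1.comp_left (g := fun A : (Fin n → ℝ) →L[ℝ] (Fin n → ℝ) => ∑ i, A (Pi.single i 1) i)
    (by simp)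

/-- integration by parts -/
theorem ibp (g : (Fin n → ℝ) → ℝ) (hg : ContDiff ℝ 1 g) (ξ : (Fin n → ℝ) → (Fin n → ℝ))
    (hξ : Adm ξ) : ∫ x, g x * dv ξ x = - ∫ x, ∑ i, D g i x * ξ x i := by
  have hgc := hg.continuous
  have hc := fun i => comp_contDiff ξ hξ i
  have hs := fun i => comp_supp ξ hξ i
  have hs2 : ∀ i, HasCompactSupport (fun x => fderiv ℝ (fun x => ξ x i) x (Pi.single i 1)) := by
    intro i
    exact ((hs i).fderiv ℝ).comp_left (g := fun A : (Fin n → ℝ) →L[ℝ] ℝ => A (Pi.single i 1)) rfl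
  have hc2 : ∀ i, Continuous (fun x => fderiv ℝ (fun x => ξ x i) x (Pi.single i 1)) := fun i =>
    ((hc i).continuous_fderiv (by norm_num)).clm_apply continuous_const
  have i1 : ∀ i, Integrable (fun x => g x * fderiv ℝ (fun x => ξ x i) x (Pi.single i 1)) :=
    fun i => (hgc.mul (hc2 i)).integrable_of_hasCompactSupport (hs2 i).mul_left
  have i2 : ∀ i, Integrable (fun x => D g i x * ξ x i) := fun i =>
    ((continuous_D g hg i).mul (hc i).continuous).integrable_of_hasCompactSupport (hs i).mul_left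
  have i3 : ∀ i, Integrable (fun x => g x * ξ x i) := fun i =>
    (hgc.mul (hc i).continuous).integrable_of_hasCompactSupport (hs i).mul_left
  rw [integral_finsetSum _ fun i _ => i2 i, ← Finset.sum_neg_distrib]
  have e1 : ∀ x, g x * dv ξ x = ∑ i, g x * fderiv ℝ (fun x => ξ x i) x (Pi.single i 1) := by
    intro x
    unfold dv
    rw [Finset.mul_sum]
    refine Finset.sum_congr rfl fun i _ => ?_
    rw [comp_fderiv ξ hξ i]
  simp only [e1]
  rw [integral_finsetSum _ fun i _ => i1 i]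
  refine Finset.sum_congr rfl fun i _ => ?_
  exact integral_mul_fderiv_eq_neg_fderiv_mul_of_integrable (i2 i) (i1 i) (i3 i)
    (fun x _ => hg.differentiable (by norm_num) x)
    (fun x _ => (hc i).differentiable (by norm_num) x)

/-! ### cutoffs -/

/-- trapezoid -/
noncomputable def rho (κ u : ℝ) : ℝ := max 0 (min 1 (min (u / κ) ((1 - u) / κ)))

theorem rho_cont (κ : ℝ) : Continuous (rho κ) := by
  unfold rho; fun_prop

theorem rho_nonneg (κ u : ℝ) : 0 ≤ rho κ u := le_max_left _ _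

theorem rho_le (κ u : ℝ) : rho κ u ≤ 1 := max_le zero_le_one (min_le_left _ _)

theorem rho_neg {κ u : ℝ} (hκ : 0 < κ) (hu : u ≤ 0) : rho κ u = 0 := by
  unfold rho
  apply max_eq_left
  refine (min_le_right _ _).trans ((min_le_left _ _).trans ?_)
  exact div_nonpos_of_nonpos_of_nonneg hu hκ.le

theorem rho_big {κ u : ℝ} (hκ : 0 < κ) (hu : 1 ≤ u) : rho κ u = 0 := by
  unfold rho
  apply max_eq_left
  refine (min_le_right _ _).trans ((min_le_right _ _).trans ?_)
  exact div_nonpos_of_nonpos_of_nonneg (by linarith) hκ.le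

theorem rho_one {κ u : ℝ} (hκ : 0 < κ) (h1 : κ ≤ u) (h2 : u ≤ 1 - κ) : rho κ u = 1 := by
  unfold rho
  have e1 : 1 ≤ u / κ := by rw [le_div_iff₀ hκ]; linarith
  have e2 : 1 ≤ (1 - u) / κ := by rw [le_div_iff₀ hκ]; linarith
  rw [min_eq_left (le_min e1 e2)]
  norm_num

/-- primitive of the trapezoid -/
noncomputable def KK (κ t : ℝ) : ℝ := ∫ u in (0:ℝ)..t, rho κ u

theorem KK_deriv (κ t : ℝ) : HasDerivAt (KK κ) (rho κ t) t :=
  intervalIntegral.integral_hasDerivAt_right ((rho_cont κ).intervalIntegrable _ _)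
      ((rho_cont κ).stronglyMeasurableAtFilter _ _) (rho_cont κ).continuousAt

theorem KK_contDiff (κ : ℝ) : ContDiff ℝ 1 (KK κ) := by
  rw [contDiff_one_iff_deriv]
  refine ⟨fun t => (KK_deriv κ t).differentiableAt, ?_⟩
  have : deriv (KK κ) = rho κ := funext fun t => (KK_deriv κ t).deriv
  rw [this]
  exact rho_cont κ

theorem KK_neg {κ t : ℝ} (hκ : 0 < κ) (ht : t ≤ 0) : KK κ t = 0 := by
  unfold KK
  rw [intervalIntegral.integral_symm, neg_eq_zero]
  have : ∀ u ∈ uIcc t 0, rho κ u = 0 := by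
    intro u hu
    rw [uIcc_of_le ht] at hu
    exact rho_neg hκ hu.2
  rw [intervalIntegral.integral_congr this]
  simp

theorem KK_big {κ t : ℝ} (hκ : 0 < κ) (ht : 1 ≤ t) : KK κ t = KK κ 1 := by
  unfold KK
  have h := intervalIntegral.integral_add_adjacent_intervals
    ((rho_cont κ).intervalIntegrable (μ := volume) 0 1) ((rho_cont κ).intervalIntegrable 1 t)
  rw [← h]
  have : ∀ u ∈ uIcc 1 t, rho κ u = 0 := by
    intro u hu
    rw [uIcc_of_le ht] at hu
    exact rho_big hκ hu.1
  rw [intervalIntegral.integral_congr this]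
  simp

theorem KK_nonneg {κ t : ℝ} (hκ : 0 < κ) : 0 ≤ KK κ t := by
  rcases le_total t 0 with h | h
  · rw [KK_neg hκ h]
  · exact intervalIntegral.integral_nonneg h fun u _ => rho_nonneg κ u

theorem KK_mono (κ : ℝ) : Monotone (KK κ) := by
  apply monotone_of_deriv_nonneg (fun t => (KK_deriv κ t).differentiableAt)
  intro t
  rw [(KK_deriv κ t).deriv]
  exact rho_nonneg κ t

theorem KK_le_one {κ t : ℝ} (hκ : 0 < κ) : KK κ t ≤ 1 := by
  have h1 : KK κ t ≤ KK κ 1 := by
    rcases le_total t 1 with h | h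
    · exact KK_mono κ h
    · rw [KK_big hκ h]
  refine h1.trans ?_
  unfold KK
  calc ∫ u in (0:ℝ)..1, rho κ u ≤ ∫ u in (0:ℝ)..1, (1:ℝ) := by
        apply intervalIntegral.integral_mono_on (by norm_num)
          ((rho_cont κ).intervalIntegrable _ _) intervalIntegrable_const
        intro u _
        exact rho_le κ u
    _ = 1 := by simp

theorem KK_one_ge {κ : ℝ} (hκ : 0 < κ) (hκ2 : κ < 1 / 2) : 1 - 2 * κ ≤ KK κ 1 := by
  unfold KK
  have h1 := intervalIntegral.integral_add_adjacent_intervals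
    ((rho_cont κ).intervalIntegrable (μ := volume) 0 κ) ((rho_cont κ).intervalIntegrable κ 1)
  have h2 := intervalIntegral.integral_add_adjacent_intervals
    ((rho_cont κ).intervalIntegrable (μ := volume) κ (1 - κ))
    ((rho_cont κ).intervalIntegrable (1 - κ) 1)
  have h3 : ∫ u in κ..(1 - κ), rho κ u = 1 - 2 * κ := by
    have : ∀ u ∈ uIcc κ (1 - κ), rho κ u = 1 := by
      intro u hu
      rw [uIcc_of_le (by linarith)] at hu
      exact rho_one hκ hu.1 hu.2
    rw [intervalIntegral.integral_congr this]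
    simp only [intervalIntegral.integral_const, smul_eq_mul, mul_one]
    ring
  have h4 : 0 ≤ ∫ u in (0:ℝ)..κ, rho κ u :=
    intervalIntegral.integral_nonneg hκ.le fun u _ => rho_nonneg κ u
  have h5 : 0 ≤ ∫ u in (1 - κ)..1, rho κ u :=
    intervalIntegral.integral_nonneg (by linarith) fun u _ => rho_nonneg κ u
  linarith

/-! ### the level estimate -/

/-- gradient mass below a level -/
noncomputable def Lam (G : (Fin n → ℝ) → ℝ) (t : ℝ) : ℝ :=
  ∫ x in Icc (0 : Fin n → ℝ) 1 ∩ {x | G x ≤ t}, gn G x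

theorem gn_int (G : (Fin n → ℝ) → ℝ) (hG : ContDiff ℝ 1 G) :
    IntegrableOn (gn G) (Icc (0 : Fin n → ℝ) 1) :=
  (gn_cont G hG).continuousOn.integrableOn_compact isCompact_Icc

theorem Lam_mono (G : (Fin n → ℝ) → ℝ) (hG : ContDiff ℝ 1 G) : Monotone (Lam G) := by
  intro s t hst
  unfold Lam
  apply setIntegral_mono_set ((gn_int G hG).mono_set inter_subset_left)
  · exact Eventually.of_forall fun x => gn_nonneg G x
  · apply LE.le.eventuallyLE
    exact inter_subset_inter_right _ fun x hx => le_trans hx hst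

theorem Lam_sub (G : (Fin n → ℝ) → ℝ) (hG : ContDiff ℝ 1 G) {s t : ℝ} (hst : s ≤ t) :
    Lam G t - Lam G s = ∫ x in Icc (0 : Fin n → ℝ) 1 ∩ {x | s < G x ∧ G x ≤ t}, gn G x := by
  have hGc := hG.continuous
  have hm : MeasurableSet (Icc (0 : Fin n → ℝ) 1 ∩ {x | G x ≤ s}) :=
    measurableSet_Icc.inter (measurableSet_le hGc.measurable measurable_const)
  have hm2 : MeasurableSet (Icc (0 : Fin n → ℝ) 1 ∩ {x | s < G x ∧ G x ≤ t}) :=
    measurableSet_Icc.inter ((measurableSet_lt measurable_const hGc.measurable).inter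
      (measurableSet_le hGc.measurable measurable_const))
  have he : Icc (0 : Fin n → ℝ) 1 ∩ {x | G x ≤ t} = (Icc (0 : Fin n → ℝ) 1 ∩ {x | G x ≤ s}) ∪
      (Icc (0 : Fin n → ℝ) 1 ∩ {x | s < G x ∧ G x ≤ t}) := by
    ext x
    simp only [mem_inter_iff, Set.mem_ofPred_eq, mem_union]
    constructor
    · rintro ⟨h1, h2⟩
      rcases le_or_gt (G x) s with h | h
      · exact Or.inl ⟨h1, h⟩
      · exact Or.inr ⟨h1, h, h2⟩
    · rintro (⟨h1, h2⟩ | ⟨h1, h2, h3⟩)
      · exact ⟨h1, h2.trans hst⟩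
      · exact ⟨h1, h3⟩
  have hd : Disjoint (Icc (0 : Fin n → ℝ) 1 ∩ {x | G x ≤ s})
      (Icc (0 : Fin n → ℝ) 1 ∩ {x | s < G x ∧ G x ≤ t}) := by
    rw [Set.disjoint_left]
    rintro x ⟨_, h1⟩ ⟨_, h2, _⟩
    exact absurd h1 (not_le.2 h2)
  unfold Lam
  rw [he, setIntegral_union hd hm2 ((gn_int G hG).mono_set inter_subset_left)
    ((gn_int G hG).mono_set inter_subset_left)]
  ring

theorem sum_le (G : (Fin n → ℝ) → ℝ) (ξ : (Fin n → ℝ) → (Fin n → ℝ)) (hξ : Adm ξ)
    (x : Fin n → ℝ) : -(∑ i, D G i x * ξ x i) ≤ gn G x := by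
  have h := Finset.sum_mul_sq_le_sq_mul_sq Finset.univ (fun i => D G i x) (fun i => ξ x i)
  have h1 := hξ.2.2.2 x
  have h0 : 0 ≤ ∑ i, D G i x ^ 2 := Finset.sum_nonneg fun i _ => sq_nonneg _
  have h2 : (∑ i, D G i x * ξ x i) ^ 2 ≤ ∑ i, D G i x ^ 2 := by nlinarith
  have h3 := Real.abs_le_sqrt h2
  exact (neg_le_abs _).trans h3

theorem level (G : (Fin n → ℝ) → ℝ) (hG : ContDiff ℝ 1 G) (ξ : (Fin n → ℝ) → (Fin n → ℝ))
    (hξ : Adm ξ) (κ c η : ℝ) (hκ : 0 < κ) (hη : 0 < η) :
    ∫ x, KK κ ((G x - c) / η) * dv ξ x ≤ (Lam G (c + η) - Lam G c) / η := by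
  set g : (Fin n → ℝ) → ℝ := fun x => KK κ ((G x - c) / η) with hg
  have hgd : ContDiff ℝ 1 g := (KK_contDiff κ).comp ((hG.sub contDiff_const).div_const η)
  have hD : ∀ i x, D g i x = rho κ ((G x - c) / η) / η * D G i x := by
    intro i x
    have h1 : HasFDerivAt G (fderiv ℝ G x) x := (hG.differentiable (by norm_num) x).hasFDerivAt
    have h2 : HasFDerivAt (fun x => (G x - c) / η) (η⁻¹ • fderiv ℝ G x) x := by
      have := (h1.sub_const c).const_mul η⁻¹
      refine this.congr_of_eventuallyEq (Eventually.of_forall fun y => ?_)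
      show (G y - c) / η = η⁻¹ * (G y - c)
      ring
    have h3 := (KK_deriv κ ((G x - c) / η)).comp_hasFDerivAt x h2
    unfold D
    have h4 : fderiv ℝ g x = _ := h3.fderiv
    rw [h4]
    simp only [smul_apply, smul_eq_mul]
    ring
  rw [ibp g hgd ξ hξ, Lam_sub G hG (by linarith), ← integral_neg]
  have hmS : MeasurableSet (Icc (0 : Fin n → ℝ) 1 ∩ {x | c < G x ∧ G x ≤ c + η}) :=
    measurableSet_Icc.inter ((measurableSet_lt measurable_const hG.continuous.measurable).inter
      (measurableSet_le hG.continuous.measurable measurable_const))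
  set S := Icc (0 : Fin n → ℝ) 1 ∩ {x | c < G x ∧ G x ≤ c + η} with hS
  have hsub : S ⊆ Icc (0 : Fin n → ℝ) 1 := inter_subset_left
  rw [div_eq_mul_inv, mul_comm, ← integral_const_mul, ← integral_indicator hmS]
  have hc := fun i => comp_contDiff ξ hξ i
  have hs := fun i => comp_supp ξ hξ i
  have i2 : ∀ i, Integrable (fun x => D g i x * ξ x i) := fun i =>
    ((continuous_D g hgd i).mul (hc i).continuous).integrable_of_hasCompactSupport (hs i).mul_left
  apply integral_mono
  · exact (integrable_finsetSum _ fun i _ => i2 i).neg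
  · rw [integrable_indicator_iff hmS]
    exact ((gn_int G hG).mono_set hsub).const_mul _
  intro x
  show -(∑ i, D g i x * ξ x i) ≤ S.indicator (fun x => η⁻¹ * gn G x) x
  have e : -(∑ i, D g i x * ξ x i) =
      rho κ ((G x - c) / η) / η * (-(∑ i, D G i x * ξ x i)) := by
    rw [mul_neg, Finset.mul_sum]
    congr 1
    refine Finset.sum_congr rfl fun i _ => ?_
    rw [hD]; ring
  rw [e]
  by_cases hx : x ∈ S
  · rw [indicator_of_mem hx]
    have h1 := sum_le G ξ hξ x
    have h2 := rho_nonneg κ ((G x - c) / η)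
    have h3 := rho_le κ ((G x - c) / η)
    calc rho κ ((G x - c) / η) / η * (-(∑ i, D G i x * ξ x i)) ≤
          rho κ ((G x - c) / η) / η * gn G x := mul_le_mul_of_nonneg_left h1 (by positivity)
      _ ≤ η⁻¹ * gn G x := by
          apply mul_le_mul_of_nonneg_right _ (gn_nonneg G x)
          rw [div_eq_mul_inv]
          have : 0 ≤ η⁻¹ := by positivity
          nlinarith
  · rw [indicator_of_notMem hx]
    by_cases hxQ : x ∈ Icc (0 : Fin n → ℝ) 1
    · have h0 : rho κ ((G x - c) / η) = 0 := by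
        by_contra hne
        apply hx
        refine ⟨hxQ, ?_, ?_⟩
        · by_contra h
          push Not at h
          exact hne (rho_neg hκ (div_nonpos_of_nonpos_of_nonneg (by linarith) hη.le))
        · by_contra h
          push Not at h
          apply hne
          apply rho_big hκ
          rw [le_div_iff₀ hη]
          linarith
      rw [h0]; simp
    · have h0 : ξ x = 0 := by
        by_contra hne
        exact hxQ (U_sub (hξ.2.2.1 (subset_tsupport ξ hne)))
      rw [h0]; simp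

theorem level_lim (G : (Fin n → ℝ) → ℝ) (hG : ContDiff ℝ 1 G) (ξ : (Fin n → ℝ) → (Fin n → ℝ))
    (hξ : Adm ξ) (κ c L : ℝ) (hκ : 0 < κ) (hL : HasDerivAt (Lam G) L c) :
    KK κ 1 * ∫ x in U n ∩ {x | c < G x}, dv ξ x ≤ L := by
  have hdc := dv_cont ξ hξ
  have hdi : Integrable (dv ξ) := hdc.integrable_of_hasCompactSupport (dv_hcs ξ hξ)
  set η : ℕ → ℝ := fun k => 1 / ((k : ℝ) + 1) with hη
  have hη0 : ∀ k, 0 < η k := fun k => by simp only [hη]; positivity
  have hηl : Tendsto η atTop (𝓝 0) := tendsto_one_div_add_atTop_nhds_zero_nat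
  have hlim1 : Tendsto (fun k => ∫ x, KK κ ((G x - c) / η k) * dv ξ x) atTop
      (𝓝 (∫ x, ({x | c < G x}).indicator (fun _ => KK κ 1) x * dv ξ x)) := by
    apply tendsto_integral_of_dominated_convergence (fun x => ‖dv ξ x‖)
    · intro k
      have h1 : Continuous (KK κ) := (KK_contDiff κ).continuous
      exact ((h1.comp ((hG.continuous.sub continuous_const).div_const _)).mul
        hdc).aestronglyMeasurable
    · exact hdi.norm
    · intro k
      refine Eventually.of_forall fun x => ?_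
      rw [norm_mul]
      have h1 : ‖KK κ ((G x - c) / η k)‖ ≤ 1 := by
        rw [Real.norm_eq_abs, abs_of_nonneg (KK_nonneg hκ)]
        exact KK_le_one hκ
      have h2 := norm_nonneg (dv ξ x)
      nlinarith
    · refine Eventually.of_forall fun x => ?_
      apply Tendsto.mul_const
      by_cases hx : c < G x
      · rw [indicator_of_mem (show x ∈ {x | c < G x} from hx)]
        apply tendsto_const_nhds.congr'
        have h1 : ∀ᶠ k in atTop, η k < G x - c := hηl.eventually (gt_mem_nhds (by linarith))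
        filter_upwards [h1] with k hk
        refine (KK_big hκ ?_).symm
        rw [le_div_iff₀ (hη0 k)]
        linarith
      · rw [indicator_of_notMem (show x ∉ {x | c < G x} from hx)]
        push Not at hx
        apply tendsto_const_nhds.congr
        intro k
        exact (KK_neg hκ (div_nonpos_of_nonpos_of_nonneg (by linarith) (hη0 k).le)).symm
  have hlim2 : Tendsto (fun k => (Lam G (c + η k) - Lam G c) / η k) atTop (𝓝 L) := by
    have h1 := (hasDerivAt_iff_tendsto_slope_zero.1 hL)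
    have h2 : Tendsto η atTop (𝓝[≠] 0) :=
      tendsto_nhdsWithin_iff.2 ⟨hηl, Eventually.of_forall fun k => (hη0 k).ne'⟩
    refine (h1.comp h2).congr fun k => ?_
    simp only [Function.comp, smul_eq_mul]
    ring
  have hle := le_of_tendsto_of_tendsto' hlim1 hlim2 fun k =>
    level G hG ξ hξ κ c (η k) hκ (hη0 k)
  have hmG : MeasurableSet {x | c < G x} := measurableSet_lt measurable_const hG.continuous.measurable
  have e : ∫ x, ({x | c < G x}).indicator (fun _ => KK κ 1) x * dv ξ x =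
      KK κ 1 * ∫ x in U n ∩ {x | c < G x}, dv ξ x := by
    have hmU : MeasurableSet (U n) := by
      have : U n = ⋂ i, {x : Fin n → ℝ | 0 < x i ∧ x i < 1} := by
        ext x; simp [U]
      rw [this]
      exact MeasurableSet.iInter fun i => (measurableSet_lt measurable_const
        (measurable_pi_apply i)).inter (measurableSet_lt (measurable_pi_apply i) measurable_const)
    rw [← integral_indicator (hmU.inter hmG), ← integral_const_mul]
    congr 1
    funext x
    by_cases hxU : x ∈ U n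
    · by_cases hxG : x ∈ {x | c < G x}
      · rw [indicator_of_mem hxG, indicator_of_mem (s := U n ∩ {x | c < G x}) ⟨hxU, hxG⟩]
      · rw [indicator_of_notMem hxG,
          indicator_of_notMem (s := U n ∩ {x | c < G x}) (fun h => hxG h.2)]
        simp
    · rw [indicator_of_notMem (s := U n ∩ {x | c < G x}) (fun h => hxU h.1), dv_supp ξ hξ hxU]
      simp
  rw [e] at hle
  exact hle

theorem level_PB (G : (Fin n → ℝ) → ℝ) (hG : ContDiff ℝ 1 G) (c L : ℝ)
    (hL : HasDerivAt (Lam G) L c) : PB (U n ∩ {x | c < G x}) L := by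
  intro ξ hξ
  set I := ∫ x in U n ∩ {x | c < G x}, dv ξ x with hI
  by_contra hcon
  push Not at hcon
  have hL0 : 0 ≤ L := by
    have := ((Lam_mono G hG).monotoneOn univ).derivWithin_nonneg (x := c)
    rw [derivWithin_univ, hL.deriv] at this
    exact this
  have hI0 : 0 < I := by linarith
  -- choose κ
  set κ := min (1 / 4) ((I - L) / (4 * I)) with hκ
  have hκ0 : 0 < κ := by
    apply lt_min (by norm_num)
    apply div_pos <;> linarith
  have hκ1 : κ < 1 / 2 := (min_le_left _ _).trans_lt (by norm_num)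
  have h1 := level_lim G hG ξ hξ κ c L hκ0 hL
  rw [← hI] at h1
  have h2 := KK_one_ge hκ0 hκ1
  have h3 : (1 - 2 * κ) * I ≤ L := (mul_le_mul_of_nonneg_right h2 hI0.le).trans h1
  have h4 : κ ≤ (I - L) / (4 * I) := min_le_right _ _
  rw [le_div_iff₀ (by linarith)] at h4
  nlinarith

theorem good_level (G : (Fin n → ℝ) → ℝ) (hG : ContDiff ℝ 1 G) (δ e : ℝ) (hδ : 0 < δ)
    (he : 0 < e) : ∃ c ∈ Ioo 0 δ,
      PB (U n ∩ {x | c < G x}) ((Lam G δ - Lam G 0) / δ + e) := by
  set K := (Lam G δ - Lam G 0) / δ + e with hK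
  by_contra hcon
  push Not at hcon
  have hmono := Lam_mono G hG
  have h1 : ∀ᵐ c ∂(volume.restrict (Icc 0 δ)), K ≤ deriv (Lam G) c := by
    rw [ae_restrict_iff' measurableSet_Icc]
    have h0 : ∀ᵐ c : ℝ, c ≠ 0 ∧ c ≠ δ := by
      have a1 : ∀ᵐ c : ℝ, c ≠ 0 := by simp [ae_iff]
      have a2 : ∀ᵐ c : ℝ, c ≠ δ := by simp [ae_iff]
      filter_upwards [a1, a2] with c h1 h2 using ⟨h1, h2⟩
    filter_upwards [hmono.ae_differentiableAt, h0] with c hc hc0 hcI
    have hcI2 : c ∈ Ioo 0 δ := ⟨lt_of_le_of_ne hcI.1 (Ne.symm hc0.1), lt_of_le_of_ne hcI.2 hc0.2⟩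
    by_contra hlt
    push Not at hlt
    apply hcon c hcI2
    have h2 := level_PB G hG c _ hc.hasDerivAt
    exact fun ξ hξ => (h2 ξ hξ).trans hlt.le
  have h2 := (hmono.monotoneOn (uIcc 0 δ)).intervalIntegral_deriv_mem_uIcc
  have h3 : Lam G 0 ≤ Lam G δ := hmono hδ.le
  rw [uIcc_of_le (by linarith)] at h2
  have h4 : ∫ c in (0:ℝ)..δ, K ≤ ∫ c in (0:ℝ)..δ, deriv (Lam G) c := by
    apply intervalIntegral.integral_mono_ae_restrict hδ.le intervalIntegrable_const _ h1
    exact (hmono.monotoneOn (uIcc 0 δ)).intervalIntegrable_deriv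
  rw [intervalIntegral.integral_const, smul_eq_mul, sub_zero] at h4
  have h5 : δ * K = Lam G δ - Lam G 0 + δ * e := by
    rw [hK]; field_simp
  have h6 : 0 < δ * e := by positivity
  linarith [h2.2]

end Pool.Agent.Helper80K1
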