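import Pool.Agent.Helper80K1.Clt
import Pool.Agent.Helper80K1.Coarea
import Pool.Agent.Helper62K1.IsoApi

/-!
# The almost Gaussian direction on a big cube
-/

set_option autoImplicit false

namespace Pool.Agent.Helper80K1

open MeasureTheory ProbabilityTheory Set Filter Topology
open Pool.Agent.H48R3.CP (D U continuous_D U_sub vol_Icc)
open Pool.Agent.R755.Tr (Ph Ps Ph_cont Ph_pos Ph_lt_one Ph_deriv Ph_Ps Ps_le_iff Ph_real Ph_strict
  Ph_mono φ_deriv)
open Pool.Agent.H460BZ (φ φ_eq φ_cont φ_nonneg)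
open Pool.Agent.H62

/-- first coordinates -/
def fs {m d : ℕ} (z : Fin (m + d) → ℝ) : Fin m → ℝ := fun j => z (Fin.castAdd d j)

/-- last coordinates -/
def sn {m d : ℕ} (z : Fin (m + d) → ℝ) : Fin d → ℝ := fun i => z (Fin.natAdd m i)

theorem fs_cont {m d : ℕ} : Continuous (fs : (Fin (m + d) → ℝ) → _) := by
  unfold fs; fun_prop

theorem sn_cont {m d : ℕ} : Continuous (sn : (Fin (m + d) → ℝ) → _) := by
  unfold sn; fun_prop

/-- the splitting equivalence -/
noncomputable def sp (m d : ℕ) : (Fin (m + d) → ℝ) ≃ᵐ (Fin m → ℝ) × (Fin d → ℝ) :=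
  (MeasurableEquiv.piCongrLeft (fun _ : Fin (m + d) => ℝ) finSumFinEquiv).symm.trans
    (MeasurableEquiv.sumPiEquivProdPi (fun _ : Fin m ⊕ Fin d => ℝ))

theorem sp_mp (m d : ℕ) : MeasurePreserving (sp m d) volume volume :=
  (volume_measurePreserving_piCongrLeft (fun _ : Fin (m + d) => ℝ) finSumFinEquiv).symm.trans
    (volume_measurePreserving_sumPiEquivProdPi (fun _ : Fin m ⊕ Fin d => ℝ))

theorem sp_apply (m d : ℕ) (z : Fin (m + d) → ℝ) : sp m d z = (fs z, sn z) := rfl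

theorem split_int {m d : ℕ} (F : (Fin m → ℝ) × (Fin d → ℝ) → ℝ) (hF : Continuous F) :
    ∫ z in Icc (0 : Fin (m + d) → ℝ) 1, F (fs z, sn z) =
      ∫ y, (∫ x in Icc (0 : Fin d → ℝ) 1, F (y, x)) ∂(Pm m) := by
  have hpre : Icc (0 : Fin (m + d) → ℝ) 1 =
      sp m d ⁻¹' (Icc (0 : Fin m → ℝ) 1 ×ˢ Icc (0 : Fin d → ℝ) 1) := by
    ext z
    simp only [mem_preimage, sp_apply, mem_prod, mem_Icc, Pi.le_def, Pi.zero_apply, Pi.one_apply,
      fs, sn]
    constructor
    · rintro ⟨h1, h2⟩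
      exact ⟨⟨fun i => h1 _, fun i => h2 _⟩, ⟨fun i => h1 _, fun i => h2 _⟩⟩
    · rintro ⟨⟨h1, h2⟩, ⟨h3, h4⟩⟩
      constructor
      · intro i
        refine Fin.addCases (fun j => ?_) (fun j => ?_) i
        · exact h1 j
        · exact h3 j
      · intro i
        refine Fin.addCases (fun j => ?_) (fun j => ?_) i
        · exact h2 j
        · exact h4 j
  have e : ∀ z : Fin (m + d) → ℝ, F (fs z, sn z) = F (sp m d z) := fun z => rfl
  simp only [e]
  rw [hpre, (sp_mp m d).setIntegral_preimage_emb (sp m d).measurableEmbedding,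
    Measure.volume_eq_prod, setIntegral_prod F, Pm_eq]
  exact hF.continuousOn.integrableOn_compact (isCompact_Icc.prod isCompact_Icc)

/-! ### the probability integral transform -/

theorem gam_map : (gaussianReal 0 1).map Ph = m1 := by
  have : IsProbabilityMeasure ((gaussianReal 0 1).map Ph) :=
    Measure.isProbabilityMeasure_map Ph_cont.aemeasurable
  apply Measure.ext_of_Iic
  intro a
  rw [Measure.map_apply Ph_cont.measurable measurableSet_Iic, m1,
    Measure.restrict_apply measurableSet_Iic]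
  rcases le_or_gt a 0 with h | h
  · have e1 : Ph ⁻¹' Iic a = ∅ := by
      ext τ
      simp only [mem_preimage, mem_Iic, mem_empty_iff_false, iff_false, not_le]
      exact h.trans_lt (Ph_pos τ)
    have e2 : volume (Iic a ∩ Icc 0 1) = 0 := by
      apply measure_mono_null (t := Icc 0 0)
      · rintro t ⟨h1, h2⟩
        exact ⟨h2.1, (le_trans h1 h)⟩
      · simp
    rw [e1, e2]; simp
  rcases le_or_gt 1 a with h1 | h1
  · have e1 : Ph ⁻¹' Iic a = univ := by
      ext τ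
      simp only [mem_preimage, mem_Iic, mem_univ, iff_true]
      exact (Ph_lt_one τ).le.trans h1
    have e2 : Iic a ∩ Icc (0:ℝ) 1 = Icc 0 1 := by
      ext t
      simp only [mem_inter_iff, mem_Iic, mem_Icc, and_iff_right_iff_imp]
      intro ht; exact ht.2.trans h1
    rw [e1, e2]; simp
  · have e1 : Ph ⁻¹' Iic a = Iic (Ps a) := by
      ext τ
      simp only [mem_preimage, mem_Iic]
      exact (Ps_le_iff h h1).symm
    have e2 : Iic a ∩ Icc (0:ℝ) 1 = Icc 0 a := by
      ext t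
      simp only [mem_inter_iff, mem_Iic, mem_Icc]
      constructor
      · rintro ⟨h3, h4, _⟩; exact ⟨h4, h3⟩
      · rintro ⟨h3, h4⟩; exact ⟨h4, h3, h4.trans h1.le⟩
    rw [e1, e2, Real.volume_Icc, sub_zero]
    have h3 := Ph_real (Ps a)
    rw [Ph_Ps h h1, Measure.real] at h3
    have h4 := congrArg ENNReal.ofReal h3
    rw [ENNReal.ofReal_toReal (measure_ne_top _ _)] at h4
    exact h4.symm

theorem cltU (h : ℝ → ℝ) (hc : Continuous h) :
    Tendsto (fun m => ∫ y, h (Ph (TT m y)) ∂(Pm m)) atTop (𝓝 (∫ s in (0:ℝ)..1, h s)) := by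
  obtain ⟨C, hC⟩ := (isCompact_Icc (a := (0:ℝ)) (b := 1)).exists_bound_of_continuousOn
    hc.continuousOn
  set Ψ : BoundedContinuousFunction ℝ ℝ := BoundedContinuousFunction.ofNormedAddCommGroup
    (fun τ => h (Ph τ)) (hc.comp Ph_cont) C (fun τ => hC _ ⟨(Ph_pos τ).le, (Ph_lt_one τ).le⟩)
    with hΨ
  have h1 := clt Ψ
  have e : ∫ τ, Ψ τ ∂(gaussianReal 0 1) = ∫ s in (0:ℝ)..1, h s := by
    rw [← m1_int, ← gam_map, integral_map Ph_cont.aemeasurable hc.aestronglyMeasurable]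
    rfl
  rw [e] at h1
  exact h1

theorem limH {d : ℕ} (H : ℝ × (Fin d → ℝ) → ℝ) (hH : Continuous H) :
    Tendsto (fun m => ∫ z in Icc (0 : Fin (m + d) → ℝ) 1, H (Ph (TT m (fs z)), sn z)) atTop
      (𝓝 (∫ x in Icc (0 : Fin d → ℝ) 1, ∫ s in (0:ℝ)..1, H (s, x))) := by
  set h : ℝ → ℝ := fun s => ∫ x in Icc (0 : Fin d → ℝ) 1, H (s, x) with hh
  have hc : Continuous h := continuous_parametric_integral_of_continuous
    (f := fun s x => H (s, x)) hH isCompact_Icc
  have h1 := cltU h hc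
  have e : ∫ s in (0:ℝ)..1, h s = ∫ x in Icc (0 : Fin d → ℝ) 1, ∫ s in (0:ℝ)..1, H (s, x) := by
    simp only [hh]
    rw [intervalIntegral.integral_of_le zero_le_one]
    simp only [intervalIntegral.integral_of_le (zero_le_one' ℝ)]
    rw [integral_integral_swap]
    rw [Measure.prod_restrict]
    have : IntegrableOn H (Icc 0 1 ×ˢ Icc (0 : Fin d → ℝ) 1) :=
      hH.continuousOn.integrableOn_compact (isCompact_Icc.prod isCompact_Icc)
    exact this.mono_set (prod_mono Ioc_subset_Icc_self le_rfl)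
  rw [e] at h1
  refine h1.congr fun m => ?_
  have h2 := split_int (m := m) (d := d) (fun p => H (Ph (TT m p.1), p.2))
    (hH.comp (((Ph_cont.comp ((TT_cont m).comp continuous_fst))).prodMk continuous_snd))
  rw [h2]

/-! ### the function `G` -/

/-- `G(y,x) = f(x) - Ph(T(y))` -/
noncomputable def GG {d : ℕ} (m : ℕ) (f : (Fin d → ℝ) → ℝ) (z : Fin (m + d) → ℝ) : ℝ :=
  f (sn z) - Ph (TT m (fs z))

theorem Ph_contDiff : ContDiff ℝ 1 Ph := by
  rw [contDiff_one_iff_deriv]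
  refine ⟨fun t => (Ph_deriv t).differentiableAt, ?_⟩
  have : deriv Ph = φ := funext fun t => (Ph_deriv t).deriv
  rw [this]
  exact φ_cont

theorem TT_contDiff (m : ℕ) : ContDiff ℝ 1 (TT m) := by
  unfold TT X
  fun_prop

theorem fs_contDiff {m d : ℕ} : ContDiff ℝ 1 (fs : (Fin (m + d) → ℝ) → _) := by
  unfold fs; fun_prop

theorem sn_contDiff {m d : ℕ} : ContDiff ℝ 1 (sn : (Fin (m + d) → ℝ) → _) := by
  unfold sn; fun_prop

theorem GG_contDiff {d : ℕ} (m : ℕ) (f : (Fin d → ℝ) → ℝ) (hf : ContDiff ℝ 1 f) :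
    ContDiff ℝ 1 (GG m f) := by
  unfold GG
  exact (hf.comp sn_contDiff).sub (Ph_contDiff.comp ((TT_contDiff m).comp fs_contDiff))

theorem D_line {n : ℕ} (g : (Fin n → ℝ) → ℝ) (hg : ContDiff ℝ 1 g) (i : Fin n) (x : Fin n → ℝ)
    (L : ℝ) (h : HasDerivAt (fun t : ℝ => g (x + t • Pi.single i 1)) L 0) : D g i x = L := by
  have h1 : HasFDerivAt g (fderiv ℝ g x) x := (hg.differentiable (by norm_num) x).hasFDerivAt
  have h2 : HasDerivAt (fun t : ℝ => x + t • (Pi.single i 1 : Fin n → ℝ))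
      ((1:ℝ) • (Pi.single i 1 : Fin n → ℝ)) 0 :=
    ((hasDerivAt_id (0:ℝ)).smul_const _).const_add x
  have h3 : HasFDerivAt g (fderiv ℝ g x) (x + (0:ℝ) • (Pi.single i 1 : Fin n → ℝ)) := by
    simpa using h1
  have h4 := h3.comp_hasDerivAt (0:ℝ) h2
  have h5 := h.unique h4
  unfold D
  rw [h5, one_smul]

theorem sn_line_nat {m d : ℕ} (z : Fin (m + d) → ℝ) (i : Fin d) (t : ℝ) :
    sn (z + t • Pi.single (Fin.natAdd m i) 1) = sn z + t • Pi.single i 1 := by
  funext k
  simp only [sn, Pi.add_apply, Pi.smul_apply, smul_eq_mul]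
  congr 2
  by_cases h : k = i
  · subst h; simp
  · rw [Pi.single_eq_of_ne h, Pi.single_eq_of_ne]
    intro hc
    exact h (Fin.natAdd_injective d m hc)

theorem fs_line_nat {m d : ℕ} (z : Fin (m + d) → ℝ) (i : Fin d) (t : ℝ) :
    fs (z + t • Pi.single (Fin.natAdd m i) 1) = fs z := by
  funext k
  simp only [fs, Pi.add_apply, Pi.smul_apply, smul_eq_mul]
  rw [Pi.single_eq_of_ne]
  · simp
  · intro hc
    have := congrArg Fin.val hc
    simp at this
    omega

theorem sn_line_cast {m d : ℕ} (z : Fin (m + d) → ℝ) (j : Fin m) (t : ℝ) :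
    sn (z + t • Pi.single (Fin.castAdd d j) 1) = sn z := by
  funext k
  simp only [sn, Pi.add_apply, Pi.smul_apply, smul_eq_mul]
  rw [Pi.single_eq_of_ne]
  · simp
  · intro hc
    have := congrArg Fin.val hc
    simp at this
    omega

theorem fs_line_cast {m d : ℕ} (z : Fin (m + d) → ℝ) (j : Fin m) (t : ℝ) :
    fs (z + t • Pi.single (Fin.castAdd d j) 1) = fs z + t • Pi.single j 1 := by
  funext k
  simp only [fs, Pi.add_apply, Pi.smul_apply, smul_eq_mul]
  congr 2
  by_cases h : k = j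
  · subst h; simp
  · rw [Pi.single_eq_of_ne h, Pi.single_eq_of_ne]
    intro hc
    exact h (Fin.castAdd_injective m d hc)

theorem TT_line (m : ℕ) (y : Fin m → ℝ) (j : Fin m) :
    HasDerivAt (fun t : ℝ => TT m (y + t • Pi.single j 1))
      ((√(m : ℝ))⁻¹ * (-(√2 * Real.pi * Real.sin (Real.pi * y j)))) 0 := by
  unfold TT
  apply HasDerivAt.const_mul
  have h1 : ∀ k : Fin m, HasDerivAt (fun t : ℝ => X ((y + t • (Pi.single j 1 : Fin m → ℝ)) k))
      (if k = j then -(√2 * Real.pi * Real.sin (Real.pi * y j)) else 0) 0 := by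
    intro k
    by_cases h : k = j
    · subst h
      rw [if_pos rfl]
      simp only [Pi.add_apply, Pi.smul_apply, smul_eq_mul, Pi.single_eq_same, mul_one]
      unfold X
      have h2 : HasDerivAt (fun t : ℝ => Real.pi * (y k + t)) (Real.pi * 1) 0 :=
        ((hasDerivAt_id (0:ℝ)).const_add (y k)).const_mul Real.pi
      have h3 := (h2.cos).const_mul √2
      refine h3.congr_deriv ?_
      simp only [add_zero, mul_one]
      ring
    · rw [if_neg h]
      simp only [Pi.add_apply, Pi.smul_apply, smul_eq_mul, Pi.single_eq_of_ne h, mul_zero,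
        add_zero]
      exact hasDerivAt_const _ _
  have h2 := HasDerivAt.fun_sum (u := Finset.univ) fun k _ => h1 k
  simpa using h2

theorem D_GG_nat {m d : ℕ} (f : (Fin d → ℝ) → ℝ) (hf : ContDiff ℝ 1 f) (i : Fin d)
    (z : Fin (m + d) → ℝ) : D (GG m f) (Fin.natAdd m i) z = D f i (sn z) := by
  apply D_line _ (GG_contDiff m f hf)
  unfold GG
  simp only [sn_line_nat, fs_line_nat]
  apply HasDerivAt.sub_const
  have h1 : HasFDerivAt f (fderiv ℝ f (sn z)) (sn z) :=
    (hf.differentiable (by norm_num) _).hasFDerivAt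
  have h2 : HasDerivAt (fun t : ℝ => sn z + t • (Pi.single i 1 : Fin d → ℝ))
      ((1:ℝ) • (Pi.single i 1 : Fin d → ℝ)) 0 :=
    ((hasDerivAt_id (0:ℝ)).smul_const _).const_add _
  have h3 : HasFDerivAt f (fderiv ℝ f (sn z)) (sn z + (0:ℝ) • (Pi.single i 1 : Fin d → ℝ)) := by
    simpa using h1
  have h4 := h3.comp_hasDerivAt (0:ℝ) h2
  rw [one_smul] at h4
  exact h4

theorem D_GG_cast {m d : ℕ} (f : (Fin d → ℝ) → ℝ) (hf : ContDiff ℝ 1 f) (j : Fin m)
    (z : Fin (m + d) → ℝ) : D (GG m f) (Fin.castAdd d j) z =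
      -(φ (TT m (fs z)) * ((√(m : ℝ))⁻¹ * (-(√2 * Real.pi * Real.sin (Real.pi * fs z j))))) := by
  apply D_line _ (GG_contDiff m f hf)
  unfold GG
  simp only [sn_line_cast, fs_line_cast]
  apply HasDerivAt.const_sub
  have h1 := TT_line m (fs z) j
  have h2 : HasDerivAt Ph (φ (TT m (fs z))) (TT m (fs z + (0:ℝ) • Pi.single j 1)) := by
    simpa using Ph_deriv (TT m (fs z))
  exact h2.comp (0:ℝ) h1

theorem gn_GG {m d : ℕ} (f : (Fin d → ℝ) → ℝ) (hf : ContDiff ℝ 1 f) (z : Fin (m + d) → ℝ) :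
    gn (GG m f) z = √(∑ i, D f i (sn z) ^ 2 + φ (TT m (fs z)) ^ 2 * VV m (fs z)) := by
  unfold gn
  congr 1
  rw [Fin.sum_univ_add, add_comm]
  congr 1
  · refine Finset.sum_congr rfl fun i _ => ?_
    rw [D_GG_nat f hf]
  · unfold VV
    rw [Finset.mul_sum, Finset.mul_sum]
    refine Finset.sum_congr rfl fun j _ => ?_
    rw [D_GG_cast f hf]
    unfold Zf
    have h2 : √(2:ℝ) ^ 2 = 2 := Real.sq_sqrt (by norm_num)
    have h3 : ((√(m : ℝ))⁻¹) ^ 2 = (m : ℝ)⁻¹ := by
      rw [inv_pow, Real.sq_sqrt (Nat.cast_nonneg m)]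
    calc (-(φ (TT m (fs z)) * ((√(m : ℝ))⁻¹ * (-(√2 * Real.pi * Real.sin (Real.pi * fs z j)))))) ^ 2
        = φ (TT m (fs z)) ^ 2 * (((√(m : ℝ))⁻¹) ^ 2 *
          (√(2:ℝ) ^ 2 * Real.pi ^ 2 * Real.sin (Real.pi * fs z j) ^ 2)) := by ring
      _ = _ := by rw [h2, h3]

end Pool.Agent.Helper80K1
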